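import Mathlib
import Pool.Agent.X89.PC

set_option autoImplicit false

open scoped ComplexOrder

namespace Pool.Agent.Results.MP_395ab6_co.Fails

/-- For every `n ≥ 11` there is a complex positive semidefinite matrix of size `n + 1` with
`per A < ∑_{k ≥ 2} |a_{1k}|² per(B_kk)`, where `B_kk` is the principal submatrix of `A` on the
indices other than the first one and the `k`-th one. -/
theorem result (n : ℕ) (hn : 11 ≤ n) :
    ∃ A : Matrix (Fin (n + 1)) (Fin (n + 1)) ℂ, A.PosSemidef ∧
      A.permanent.re < ∑ k : Fin n, ‖A 0 k.succ‖ ^ 2 *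
        (A.submatrix (Subtype.val : {j : Fin (n + 1) // j ≠ 0 ∧ j ≠ k.succ} → Fin (n + 1))
          Subtype.val).permanent.re :=
  Pool.Agent.X89.PC.main n hn

end Pool.Agent.Results.MP_395ab6_co.Fails
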